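import Mathlib
set_option autoImplicit false

/-! # Entire functions from bounds of derivatives, and functions without zeros -/

namespace Pool.Agent.V1178.TW

open Filter Topology Set Metric

theorem int_step (g g' : ℝ → ℂ) (hg : ∀ s, HasDerivAt g (g' s) s) (h0 : g 0 = 0) (C : ℝ) (n : ℕ)
    (hb : ∀ s, ‖g' s‖ ≤ C * (|s| ^ n / n.factorial)) (t : ℝ) :
    ‖g t‖ ≤ C * (|t| ^ (n + 1) / (n + 1).factorial) := by
  have key : ∀ (f f' : ℝ → ℂ), (∀ s, HasDerivAt f (f' s) s) → f 0 = 0 →
      (∀ s, 0 ≤ s → ‖f' s‖ ≤ C * (s ^ n / n.factorial)) → ∀ t, 0 ≤ t →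
      ‖f t‖ ≤ C * (t ^ (n + 1) / (n + 1).factorial) := by
    intro f f' hf hf0 hfb t ht
    refine image_norm_le_of_norm_deriv_right_le_deriv_boundary (a := 0) (b := t)
      (f := f) (f' := f') (B := fun s => C * (s ^ (n + 1) / (n + 1).factorial))
      (B' := fun s => C * (s ^ n / n.factorial)) ?_ ?_ ?_ ?_ ?_ (right_mem_Icc.mpr ht)
    · exact fun s _ => (hf s).continuousAt.continuousWithinAt
    · exact fun s _ => (hf s).hasDerivWithinAt
    · rw [hf0]; simp
    · intro s
      have h1 := ((hasDerivAt_pow (n + 1) s).div_const ((n + 1).factorial : ℝ)).const_mul C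
      refine h1.congr_deriv ?_
      rw [Nat.factorial_succ]
      push_cast
      have : (n.factorial : ℝ) ≠ 0 := by exact_mod_cast n.factorial_ne_zero
      have h2 : ((n : ℝ) + 1) ≠ 0 := by positivity
      field_simp
    · intro s hs; exact hfb s hs.1
  rcases le_total 0 t with ht | ht
  · have := key g g' hg h0 (fun s hs => by have := hb s; rwa [abs_of_nonneg hs] at this) t ht
    rwa [abs_of_nonneg ht]
  · have h1 := key (fun s => g (-s)) (fun s => -g' (-s)) (fun s => by
      have := (hg (-s)).scomp s (hasDerivAt_neg s)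
      simpa [Function.comp_def] using this) (by simp [h0]) (fun s hs => by
        have := hb (-s)
        rwa [abs_neg, abs_of_nonneg hs, ← norm_neg] at this) (-t) (by linarith)
    rw [abs_of_nonpos ht]
    simpa using h1

/-- the Taylor series -/
theorem taylor (h : ℕ → ℝ → ℂ) (B M : ℝ) (hd : ∀ k t, HasDerivAt (h k) (h (k + 1) t) t)
    (hb : ∀ k t, ‖h k t‖ ≤ B * M ^ k) (n : ℕ) : ∀ (j : ℕ) (t : ℝ),
    ‖h j t - ∑ k ∈ Finset.range n, h (j + k) 0 * ((t : ℂ) ^ k / k.factorial)‖ ≤
      (B * M ^ (j + n)) * (|t| ^ n / n.factorial) := by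
  induction n with
  | zero => intro j t; simpa using hb j t
  | succ n ih =>
    intro j t
    have h1 := int_step
      (fun t => h j t - ∑ k ∈ Finset.range (n + 1), h (j + k) 0 * ((t : ℂ) ^ k / k.factorial))
      (fun t => h (j + 1) t - ∑ k ∈ Finset.range n, h (j + 1 + k) 0 * ((t : ℂ) ^ k / k.factorial))
      ?_ ?_ (B * M ^ (j + 1 + n)) n (fun s => ih (j + 1) s) t
    · have e : j + (n + 1) = j + 1 + n := by ring
      rw [e]; exact h1
    · intro s
      refine (hd j s).sub ?_
      have h2 : ∀ k ∈ Finset.range (n + 1), HasDerivAt (fun t : ℝ => h (j + k) 0 * ((t : ℂ) ^ k / k.factorial))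
          (h (j + k) 0 * ((k : ℂ) * (s : ℂ) ^ (k - 1) / k.factorial)) s := by
        intro k _
        have h3 : HasDerivAt (fun t : ℝ => ((t : ℂ) ^ k)) ((k : ℂ) * (s : ℂ) ^ (k - 1)) s := by
          have := (hasDerivAt_pow k (s : ℂ)).comp_ofReal
          exact this
        exact (h3.div_const _).const_mul _
      have h3 := HasDerivAt.fun_sum h2
      rw [Finset.sum_range_succ'] at h3
      simp only [Nat.cast_zero, zero_mul, zero_div, mul_zero, add_zero] at h3
      have h4 : HasDerivAt (fun x : ℝ => ∑ k ∈ Finset.range (n + 1), h (j + k) 0 * ((x : ℂ) ^ k / k.factorial))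
          (∑ k ∈ Finset.range n, h (j + (k + 1)) 0 * (((k + 1 : ℕ) : ℂ) * (s : ℂ) ^ (k + 1 - 1) / (k + 1).factorial)) s := h3
      refine h4.congr_deriv ?_
      refine Finset.sum_congr rfl fun k _ => ?_
      rw [show j + (k + 1) = j + 1 + k by ring, Nat.factorial_succ]
      push_cast
      have : (k.factorial : ℂ) ≠ 0 := by exact_mod_cast k.factorial_ne_zero
      have h2 : ((k : ℂ) + 1) ≠ 0 := by exact_mod_cast k.succ_ne_zero
      field_simp
    · rw [Finset.sum_range_succ']
      simp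

theorem entire_of (h : ℕ → ℝ → ℂ) (B M : ℝ) (hM : 0 ≤ M) (hd : ∀ k t, HasDerivAt (h k) (h (k + 1) t) t)
    (hb : ∀ k t, ‖h k t‖ ≤ B * M ^ k) :
    ∃ P : ℂ → ℂ, Differentiable ℂ P ∧ (∀ t : ℝ, P t = h 0 t) ∧
      ∀ z, ‖P z‖ ≤ B * Real.exp (M * ‖z‖) := by
  have hB : 0 ≤ B := by have := (norm_nonneg _).trans (hb 0 0); simpa using this
  set P : ℂ → ℂ := fun z => ∑' k, h k 0 * (z ^ k / k.factorial) with hP
  have hbk : ∀ (k : ℕ) (z : ℂ), ‖h k 0 * (z ^ k / k.factorial)‖ ≤ B * ((M * ‖z‖) ^ k / k.factorial) := by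
    intro k z
    rw [norm_mul, norm_div, norm_pow, Complex.norm_natCast]
    calc ‖h k 0‖ * (‖z‖ ^ k / k.factorial) ≤ (B * M ^ k) * (‖z‖ ^ k / k.factorial) :=
          mul_le_mul_of_nonneg_right (hb k 0) (by positivity)
      _ = B * ((M * ‖z‖) ^ k / k.factorial) := by rw [mul_pow]; ring
  have hsR : ∀ x : ℝ, Summable fun k : ℕ => B * (x ^ k / k.factorial) := fun x =>
    (Real.summable_pow_div_factorial x).mul_left B
  have hsum : ∀ z, Summable fun k => h k 0 * (z ^ k / k.factorial) := fun z =>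
    Summable.of_norm_bounded (hsR (M * ‖z‖)) (fun k => hbk k z)
  refine ⟨P, ?_, ?_, ?_⟩
  · intro z
    have h1 : DifferentiableOn ℂ P (ball 0 (‖z‖ + 1)) := by
      refine Complex.differentiableOn_tsum_of_summable_norm (hsR (M * (‖z‖ + 1))) ?_ isOpen_ball ?_
      · intro k
        exact ((differentiable_id.pow k).div_const _ |>.const_mul _).differentiableOn
      · intro k w hw
        refine (hbk k w).trans ?_
        rw [mem_ball_zero_iff] at hw
        have : M * ‖w‖ ≤ M * (‖z‖ + 1) := mul_le_mul_of_nonneg_left hw.le hM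
        gcongr
    exact (h1 z (by rw [mem_ball_zero_iff]; linarith)).differentiableAt
      (isOpen_ball.mem_nhds (by rw [mem_ball_zero_iff]; linarith))
  · intro t
    have h1 : Tendsto (fun n => ∑ k ∈ Finset.range n, h (0 + k) 0 * ((t : ℂ) ^ k / k.factorial))
        atTop (𝓝 (P t)) := by
      simp only [zero_add]
      exact (hsum t).hasSum.tendsto_sum_nat
    have h2 : Tendsto (fun n => ∑ k ∈ Finset.range n, h (0 + k) 0 * ((t : ℂ) ^ k / k.factorial))
        atTop (𝓝 (h 0 t)) := by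
      rw [tendsto_iff_norm_sub_tendsto_zero]
      refine squeeze_zero (fun n => norm_nonneg _) (fun n => ?_)
        (g := fun n : ℕ => B * ((M * |t|) ^ n / n.factorial)) ?_
      · rw [norm_sub_rev]
        refine (taylor h B M hd hb n 0 t).trans (le_of_eq ?_)
        rw [zero_add, mul_pow]; ring
      · have := (FloorSemiring.tendsto_pow_div_factorial_atTop (M * |t|)).const_mul B
        rwa [mul_zero] at this
    exact tendsto_nhds_unique h1 h2
  · intro z
    have h1 : HasSum (fun k : ℕ => B * ((M * ‖z‖) ^ k / k.factorial)) (B * Real.exp (M * ‖z‖)) := by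
      have := (NormedSpace.expSeries_div_hasSum_exp (M * ‖z‖) (𝔸 := ℝ)).mul_left B
      rw [← Real.exp_eq_exp_ℝ] at this
      exact this
    exact tsum_of_norm_bounded h1 (fun k => hbk k z)

/-- Hadamard: functions of exponential type without zeros -/
theorem hadamard (P : ℂ → ℂ) (hP : Differentiable ℂ P) (h0 : ∀ z, P z ≠ 0) (B M : ℝ) (hM : 0 ≤ M)
    (hb : ∀ z, ‖P z‖ ≤ B * Real.exp (M * ‖z‖)) : ∃ a b : ℂ, ∀ z, P z = Complex.exp (a + b * z) := by
  have hB : 0 < B := by
    have h1 := (norm_pos_iff.mpr (h0 0)).trans_le (hb 0)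
    simpa using h1
  -- logarithm
  have hdP : Differentiable ℂ (deriv P) := hP.deriv
  have hq : Differentiable ℂ fun z => deriv P z / P z := hdP.div hP h0
  obtain ⟨L, hL0, hL⟩ := hq.isExactOn_univ.with_val_at 0 (Complex.log (P 0))
  have hLd : ∀ z, HasDerivAt L (deriv P z / P z) z := fun z => hL z (mem_univ z)
  have hLdiff : Differentiable ℂ L := fun z => (hLd z).differentiableAt
  have hexp : ∀ z, P z = Complex.exp (L z) := by
    have h1 : ∀ z, HasDerivAt (fun z => P z * Complex.exp (-L z)) 0 z := by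
      intro z
      have h2 := (hP z).hasDerivAt.mul ((hLd z).neg.cexp)
      refine h2.congr_deriv ?_
      have := h0 z
      field_simp
      ring
    have h2 : ∀ z, P z * Complex.exp (-L z) = P 0 * Complex.exp (-L 0) := fun z =>
      is_const_of_deriv_eq_zero (fun z => (h1 z).differentiableAt) (fun z => (h1 z).deriv) z 0
    have h3 : P 0 * Complex.exp (-L 0) = 1 := by
      rw [hL0, Complex.exp_neg, Complex.exp_log (h0 0), mul_inv_cancel₀ (h0 0)]
    intro z
    have h4 := h2 z
    rw [h3, Complex.exp_neg] at h4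
    have h5 := Complex.exp_ne_zero (L z)
    field_simp at h4
    exact h4
  have hre : ∀ z, (L z).re ≤ |Real.log B| + M * ‖z‖ := by
    intro z
    have h1 := hb z
    rw [hexp z, Complex.norm_exp] at h1
    have h2 : Real.exp (L z).re ≤ Real.exp (Real.log B + M * ‖z‖) := by
      rw [Real.exp_add, Real.exp_log hB]; exact h1
    have h3 := Real.exp_le_exp.mp h2
    linarith [le_abs_self (Real.log B)]
  have hLn : ∀ R : ℝ, 0 < R → ∀ z, ‖z‖ ≤ R →
      ‖L z‖ ≤ 2 * (|Real.log B| + M * (2 * R) + 1) + 3 * ‖L 0‖ := by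
    intro R hR z hz
    have hM' : 0 < |Real.log B| + M * (2 * R) + 1 := by positivity
    have h1 := Complex.borelCaratheodory (f := L) (M := |Real.log B| + M * (2 * R) + 1) (R := 2 * R)
      (z := z) hM' hLdiff.differentiableOn (fun w hw => by
        rw [mem_ball_zero_iff] at hw
        have := hre w
        have h2 : M * ‖w‖ ≤ M * (2 * R) := mul_le_mul_of_nonneg_left hw.le hM
        simp only [mem_ofPred_eq]
        linarith) (by linarith) (by rw [mem_ball_zero_iff]; linarith)
    have hd : 0 < 2 * R - ‖z‖ := by linarith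
    have h2 : ‖z‖ / (2 * R - ‖z‖) ≤ 1 := by rw [div_le_one hd]; linarith
    have h3 : (2 * R + ‖z‖) / (2 * R - ‖z‖) ≤ 3 := by rw [div_le_iff₀ hd]; linarith
    refine h1.trans ?_
    have e1 : 2 * (|Real.log B| + M * (2 * R) + 1) * ‖z‖ / (2 * R - ‖z‖) =
        2 * (|Real.log B| + M * (2 * R) + 1) * (‖z‖ / (2 * R - ‖z‖)) := by ring
    have e2 : ‖L 0‖ * (2 * R + ‖z‖) / (2 * R - ‖z‖) = ‖L 0‖ * ((2 * R + ‖z‖) / (2 * R - ‖z‖)) := by ring
    rw [e1, e2]
    have h4 : 2 * (|Real.log B| + M * (2 * R) + 1) * (‖z‖ / (2 * R - ‖z‖)) ≤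
        2 * (|Real.log B| + M * (2 * R) + 1) * 1 := mul_le_mul_of_nonneg_left h2 (by positivity)
    have h5 : ‖L 0‖ * ((2 * R + ‖z‖) / (2 * R - ‖z‖)) ≤ ‖L 0‖ * 3 :=
      mul_le_mul_of_nonneg_left h3 (norm_nonneg _)
    linarith
  -- the second derivative vanishes
  have h2d : ∀ c, iteratedDeriv 2 L c = 0 := by
    intro c
    have hlim : Tendsto (fun R : ℝ => 2 * (2 * (|Real.log B| + M * (2 * (R + ‖c‖)) + 1) + 3 * ‖L 0‖) / R ^ 2)
        atTop (𝓝 0) := by
      have e : ∀ᶠ R : ℝ in atTop, (4 * (|Real.log B| + M * (2 * ‖c‖) + 1) + 6 * ‖L 0‖) * (R⁻¹ * R⁻¹) + 8 * M * R⁻¹ =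
          2 * (2 * (|Real.log B| + M * (2 * (R + ‖c‖)) + 1) + 3 * ‖L 0‖) / R ^ 2 := by
        filter_upwards [eventually_gt_atTop 0] with R hR
        field_simp
        ring
      refine Tendsto.congr' e ?_
      have h1 : Tendsto (fun R : ℝ => R⁻¹) atTop (𝓝 0) := tendsto_inv_atTop_zero
      have h2 := ((h1.mul h1).const_mul (4 * (|Real.log B| + M * (2 * ‖c‖) + 1) + 6 * ‖L 0‖)).add
        (h1.const_mul (8 * M))
      simpa using h2
    have hbd : ∀ᶠ R : ℝ in atTop, ‖iteratedDeriv 2 L c‖ ≤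
        2 * (2 * (|Real.log B| + M * (2 * (R + ‖c‖)) + 1) + 3 * ‖L 0‖) / R ^ 2 := by
      filter_upwards [eventually_gt_atTop 0] with R hR
      have h1 := Complex.norm_iteratedDeriv_le_of_forall_mem_sphere_norm_le (c := c) (R := R)
        (C := 2 * (|Real.log B| + M * (2 * (R + ‖c‖)) + 1) + 3 * ‖L 0‖) (f := L) 2 hR
        hLdiff.diffContOnCl (fun z hz => by
          refine hLn (R + ‖c‖) (by positivity) z ?_
          rw [mem_sphere_iff_norm] at hz
          calc ‖z‖ = ‖(z - c) + c‖ := by rw [sub_add_cancel]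
            _ ≤ ‖z - c‖ + ‖c‖ := norm_add_le _ _
            _ = R + ‖c‖ := by rw [hz])
      simpa using h1
    have := ge_of_tendsto hlim hbd
    exact norm_le_zero_iff.mp this
  have hdd : ∀ z, deriv (deriv L) z = 0 := by
    intro z
    have := h2d z
    rw [iteratedDeriv_succ, iteratedDeriv_one] at this
    exact this
  have hb1 : ∀ z, deriv L z = deriv L 0 := fun z =>
    is_const_of_deriv_eq_zero hLdiff.deriv hdd z 0
  refine ⟨L 0, deriv L 0, fun z => ?_⟩
  rw [hexp z]
  congr 1
  have h3 : ∀ w, HasDerivAt (fun w => L w - deriv L 0 * w) 0 w := by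
    intro w
    have h4 := (hLdiff w).hasDerivAt.sub ((hasDerivAt_id w).const_mul (deriv L 0))
    refine h4.congr_deriv ?_
    rw [hb1 w]; simp
  have h5 := is_const_of_deriv_eq_zero (fun w => (h3 w).differentiableAt) (fun w => (h3 w).deriv) z 0
  simp only [mul_zero, sub_zero] at h5
  linear_combination h5

/-- continuous phases -/
theorem affine_of (l : ℝ → ℝ) (hl : Continuous l) (P Q : ℂ → ℂ) (hP : Differentiable ℂ P)
    (hQ : Differentiable ℂ Q) (B M : ℝ) (hM : 0 ≤ M) (hb : ∀ z, ‖P z‖ ≤ B * Real.exp (M * ‖z‖))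
    (hPl : ∀ t : ℝ, P t = Complex.exp ((2 * Real.pi * l t : ℝ) * Complex.I))
    (hQl : ∀ t : ℝ, Q t = Complex.exp ((-(2 * Real.pi * l t) : ℝ) * Complex.I)) :
    ∃ α β : ℝ, ∀ t, l t = α + β * t := by
  have hPQ : ∀ z, P z * Q z = 1 := by
    have h1 : AnalyticOnNhd ℂ (fun z => P z * Q z) univ :=
      (hP.mul hQ).differentiableOn.analyticOnNhd isOpen_univ
    have h2 : AnalyticOnNhd ℂ (fun _ : ℂ => (1 : ℂ)) univ := analyticOnNhd_const
    have h3 : ∃ᶠ z in 𝓝[≠] (0 : ℂ), P z * Q z = 1 := by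
      have h4 : ∃ᶠ t : ℝ in 𝓝[≠] (0 : ℝ), P t * Q t = 1 := by
        refine Eventually.frequently (Eventually.of_forall fun t => ?_)
        rw [hPl, hQl, ← Complex.exp_add]
        push_cast
        rw [show (2 * (Real.pi : ℂ) * l t * Complex.I + -(2 * (Real.pi : ℂ) * l t) * Complex.I) = 0 by ring,
          Complex.exp_zero]
      have h5 : Tendsto (fun t : ℝ => (t : ℂ)) (𝓝[≠] (0 : ℝ)) (𝓝[≠] (0 : ℂ)) := by
        refine tendsto_nhdsWithin_iff.mpr ⟨?_, ?_⟩
        · have : Tendsto (fun t : ℝ => (t : ℂ)) (𝓝 0) (𝓝 ((0 : ℝ) : ℂ)) :=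
            Complex.continuous_ofReal.continuousAt
          rw [Complex.ofReal_zero] at this
          exact this.mono_left nhdsWithin_le_nhds
        · filter_upwards [self_mem_nhdsWithin] with t ht
          simpa using ht
      exact h5.frequently h4
    have h6 := h1.eqOn_of_preconnected_of_frequently_eq h2 isPreconnected_univ (mem_univ 0) h3
    exact fun z => h6 (mem_univ z)
  have h0 : ∀ z, P z ≠ 0 := fun z h => by
    have := hPQ z; rw [h, zero_mul] at this; exact zero_ne_one this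
  obtain ⟨a, b, hab⟩ := hadamard P hP h0 B M hM hb
  -- real parts vanish
  have hre : ∀ t : ℝ, (a + b * t).re = 0 := by
    intro t
    have h1 := congrArg norm (hab t)
    rw [hPl, Complex.norm_exp_ofReal_mul_I, Complex.norm_exp] at h1
    exact (Real.exp_eq_one_iff _).mp h1.symm
  have hbre : b.re = 0 := by
    have h1 := hre 0; have h2 := hre 1
    simp at h1 h2
    linarith
  have hare : a.re = 0 := by have h1 := hre 0; simpa using h1
  -- integers
  have hint : ∀ t : ℝ, ∃ n : ℤ, l t - (a.im + b.im * t) / (2 * Real.pi) = n := by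
    intro t
    have h1 := hab t
    rw [hPl, Complex.exp_eq_exp_iff_exists_int] at h1
    obtain ⟨n, hn⟩ := h1
    refine ⟨n, ?_⟩
    have h2 := congrArg Complex.im hn
    simp at h2
    have := Real.pi_pos
    field_simp
    linarith
  have hcont : Continuous fun t : ℝ => l t - (a.im + b.im * t) / (2 * Real.pi) := by fun_prop
  choose n hn using hint
  have hnc : Continuous n := by
    have h1 : Continuous fun t => (n t : ℝ) := by
      have : (fun t => (n t : ℝ)) = fun t : ℝ => l t - (a.im + b.im * t) / (2 * Real.pi) := by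
        funext t; exact (hn t).symm
      rw [this]; exact hcont
    exact Int.isClosedEmbedding_coe_real.isEmbedding.continuous_iff.mpr h1
  have hconst : ∀ t, n t = n 0 := fun t =>
    PreconnectedSpace.constant inferInstance hnc
  refine ⟨a.im / (2 * Real.pi) + n 0, b.im / (2 * Real.pi), fun t => ?_⟩
  have h1 := hn t
  rw [hconst t] at h1
  have : l t = (a.im + b.im * t) / (2 * Real.pi) + n 0 := by linarith
  rw [this]; ring

end Pool.Agent.V1178.TW
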