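import Mathlib
set_option autoImplicit false

/-! # Bounded functions with bounded spectrum -/

namespace Pool.Agent.V1178.TW

open MeasureTheory Filter Topology Set FourierTransform SchwartzMap
open scoped ENNReal Convolution ContDiff

variable {E : Type*} [NormedAddCommGroup E] [InnerProductSpace ℝ E] [FiniteDimensional ℝ E]
  [MeasurableSpace E] [BorelSpace E]

/-- the spectrum is contained in the ball of radius `R` -/
def Sp (R : ℝ) (u : E → ℂ) : Prop :=
  ∀ Φ : 𝓢(E, ℂ), (∀ ξ, ‖ξ‖ ≤ R → (𝓕 Φ : 𝓢(E, ℂ)) ξ = 0) → ∫ x, u x * Φ x = 0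

/-- bounded continuous functions -/
structure BC {E : Type*} [NormedAddCommGroup E] (B : ℝ) (u : E → ℂ) : Prop where
  cont : Continuous u
  bd : ∀ x, ‖u x‖ ≤ B

/-- the operator with kernel `K` -/
noncomputable def So (K : 𝓢(E, ℂ)) (u : E → ℂ) (y : E) : ℂ := ∫ w, u w * K (w - y)

theorem So_eq (K : 𝓢(E, ℂ)) (u : E → ℂ) (y : E) : So K u y = ∫ w, u (y + w) * K w := by
  unfold So
  rw [← integral_add_left_eq_self (fun w => u w * K (w - y)) y]
  simp

theorem nonneg_of_BC {B : ℝ} {u : E → ℂ} (h : BC B u) : 0 ≤ B := (norm_nonneg (u 0)).trans (h.bd 0)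

theorem int_mul {B : ℝ} {u : E → ℂ} (h : BC B u) (K : 𝓢(E, ℂ)) (y : E) :
    Integrable fun w => u (y + w) * K w := by
  refine K.integrable.bdd_mul (c := B) ?_ (Eventually.of_forall fun w => h.bd _)
  exact (h.cont.comp (by fun_prop)).aestronglyMeasurable

theorem int_mul' {B : ℝ} {u : E → ℂ} (h : BC B u) (K : 𝓢(E, ℂ)) : Integrable fun w => u w * K w := by
  simpa using int_mul h K 0

/-- the `L¹` norm -/
noncomputable def n1 (K : 𝓢(E, ℂ)) : ℝ := ∫ w, ‖K w‖

theorem n1_nonneg (K : 𝓢(E, ℂ)) : 0 ≤ n1 K := integral_nonneg fun _ => norm_nonneg _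

theorem So_BC {B : ℝ} {u : E → ℂ} (h : BC B u) (K : 𝓢(E, ℂ)) : BC (B * n1 K) (So K u) := by
  constructor
  · have : So K u = fun y => ∫ w, u (y + w) * K w := funext (So_eq K u)
    rw [this]
    refine continuous_of_dominated (bound := fun w => B * ‖K w‖) ?_ ?_ ?_ ?_
    · intro y; exact (int_mul h K y).aestronglyMeasurable
    · intro y
      refine Eventually.of_forall fun w => ?_
      rw [norm_mul]
      exact mul_le_mul_of_nonneg_right (h.bd _) (norm_nonneg _)
    · exact K.integrable.norm.const_mul B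
    · refine Eventually.of_forall fun w => ?_
      exact (h.cont.comp (by fun_prop)).mul continuous_const
  · intro y
    rw [So_eq]
    refine (norm_integral_le_integral_norm _).trans ?_
    unfold n1
    rw [← integral_const_mul]
    refine integral_mono_of_nonneg (Eventually.of_forall fun w => norm_nonneg _)
      (K.integrable.norm.const_mul B) (Eventually.of_forall fun w => ?_)
    simp only [norm_mul]
    exact mul_le_mul_of_nonneg_right (h.bd _) (norm_nonneg _)

/-- the convolution -/
noncomputable def cv (Φ K : 𝓢(E, ℂ)) : 𝓢(E, ℂ) := SchwartzMap.convolution (ContinuousLinearMap.mul ℂ ℂ) Φ K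

theorem cv_apply (Φ K : 𝓢(E, ℂ)) (w : E) : cv Φ K w = ∫ y, Φ y * K (w - y) := by
  unfold cv
  rw [SchwartzMap.convolution_apply, MeasureTheory.convolution_def]
  rfl

theorem four_cv (Φ K : 𝓢(E, ℂ)) (ξ : E) :
    (𝓕 (cv Φ K) : 𝓢(E, ℂ)) ξ = (𝓕 Φ : 𝓢(E, ℂ)) ξ * (𝓕 K : 𝓢(E, ℂ)) ξ := by
  unfold cv
  rw [SchwartzMap.fourier_convolution, SchwartzMap.pairing_apply_apply]
  rfl

theorem So_pair {B : ℝ} {u : E → ℂ} (h : BC B u) (K Φ : 𝓢(E, ℂ)) :
    ∫ y, So K u y * Φ y = ∫ w, u w * cv Φ K w := by
  have hint : Integrable (Function.uncurry fun (y w : E) => u w * (Φ y * K (w - y)))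
      (volume.prod volume) := by
    have h1 : Integrable (fun p : E × E => Φ p.2 * K (p.1 - p.2)) (volume.prod volume) :=
      Φ.integrable.convolution_integrand (ContinuousLinearMap.mul ℂ ℂ) K.integrable
    have h2 := h1.swap
    refine h2.bdd_mul (c := B) ?_ (Eventually.of_forall fun p => h.bd p.2)
    exact (h.cont.comp continuous_snd).aestronglyMeasurable
  have e1 : ∀ y, So K u y * Φ y = ∫ w, u w * (Φ y * K (w - y)) := by
    intro y
    unfold So
    rw [← integral_mul_const]
    refine integral_congr_ae (Eventually.of_forall fun w => ?_)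
    simp only; ring
  have e2 : ∀ w, u w * cv Φ K w = ∫ y, u w * (Φ y * K (w - y)) := by
    intro w
    rw [cv_apply, ← integral_const_mul]
  simp_rw [e1, e2]
  exact integral_integral_swap hint

theorem So_spec {B R : ℝ} {u : E → ℂ} (h : BC B u) (hs : Sp R u) (K : 𝓢(E, ℂ)) : Sp R (So K u) := by
  intro Φ hΦ
  rw [So_pair h K Φ]
  apply hs
  intro ξ hξ
  rw [four_cv, hΦ ξ hξ, zero_mul]

theorem repro {B R : ℝ} {u : E → ℂ} (h : BC B u) (hs : Sp R u) (ψ : 𝓢(E, ℂ))
    (hψ : ∀ ξ, ‖ξ‖ ≤ R → (𝓕 ψ : 𝓢(E, ℂ)) ξ = 1) : So ψ u = u := by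
  have hB := So_BC h ψ
  have key : ∀ Φ : 𝓢(E, ℂ), ∫ x, u x * Φ x = ∫ x, So ψ u x * Φ x := by
    intro Φ
    rw [So_pair h ψ Φ]
    have h1 := hs (Φ - cv Φ ψ) (fun ξ hξ => by
      rw [sub_eq_add_neg, FourierTransform.fourier_add, FourierTransform.fourier_neg,
        SchwartzMap.add_apply, SchwartzMap.neg_apply, four_cv, hψ ξ hξ, mul_one, add_neg_cancel])
    have h2 : ∫ x, u x * (Φ - cv Φ ψ) x = (∫ x, u x * Φ x) - ∫ x, u x * cv Φ ψ x := by
      rw [← integral_sub (int_mul' h Φ) (int_mul' h _)]
      refine integral_congr_ae (Eventually.of_forall fun x => ?_)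
      simp only [SchwartzMap.sub_apply]; ring
    rw [h2] at h1
    exact sub_eq_zero.mp h1
  have hae : So ψ u =ᵐ[volume] u := by
    apply ae_eq_of_integral_contDiff_smul_eq hB.cont.locallyIntegrable h.cont.locallyIntegrable
    intro g hg hgs
    have hg₁ : HasCompactSupport (Complex.ofRealCLM ∘ g) := hgs.comp_left rfl
    have hg₂ : ContDiff ℝ ∞ (Complex.ofRealCLM ∘ g) := by fun_prop
    have h3 := key (hg₁.toSchwartzMap hg₂)
    have e : ∀ v : E → ℂ, ∫ x, g x • v x = ∫ x, v x * (hg₁.toSchwartzMap hg₂) x := by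
      intro v
      refine integral_congr_ae (Eventually.of_forall fun x => ?_)
      simp only [HasCompactSupport.toSchwartzMap_toFun, Function.comp, Complex.ofRealCLM_apply,
        Complex.real_smul]
      ring
    rw [e, e, h3]
  exact (Continuous.ae_eq_iff_eq volume hB.cont h.cont).mp hae

/-- the kernel of the derivative in the direction `v` -/
noncomputable def dK (ψ : 𝓢(E, ℂ)) (v : E) : 𝓢(E, ℂ) := -(LineDeriv.lineDerivOp v ψ)

theorem dK_deriv (ψ : 𝓢(E, ℂ)) (v w : E) (s : ℝ) :
    HasDerivAt (fun s : ℝ => ψ (w - s • v)) (dK ψ v (w - s • v)) s := by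
  have h1 : HasFDerivAt ψ (fderiv ℝ ψ (w - s • v)) (w - s • v) := ψ.differentiableAt.hasFDerivAt
  have h2 : HasDerivAt (fun s : ℝ => w - s • v) (-v) s := by
    have := ((hasDerivAt_id s).smul_const v).const_sub w
    simpa using this
  have h3 := h1.comp_hasDerivAt s h2
  have e : dK ψ v (w - s • v) = (fderiv ℝ ψ (w - s • v)) (-v) := by
    unfold dK
    rw [SchwartzMap.neg_apply, SchwartzMap.lineDerivOp_apply_eq_fderiv, map_neg]
  rw [e]
  exact h3

theorem So_deriv {B : ℝ} {u : E → ℂ} (h : BC B u) (ψ : 𝓢(E, ℂ)) (x v : E) (t : ℝ) :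
    HasDerivAt (fun t : ℝ => So ψ u (x + t • v)) (So (dK ψ v) u (x + t • v)) t := by
  have hK := So_BC h (dK ψ v)
  have hcont : Continuous fun s : ℝ => So (dK ψ v) u (x + s • v) := hK.cont.comp (by fun_prop)
  have key : ∀ t : ℝ, So ψ u (x + t • v) = So ψ u x + ∫ s in (0 : ℝ)..t, So (dK ψ v) u (x + s • v) := by
    intro t
    have h1 : ∀ w : E, ∫ s in (0 : ℝ)..t, dK ψ v (w - x - s • v) = ψ (w - (x + t • v)) - ψ (w - x) := by
      intro w
      rw [intervalIntegral.integral_eq_sub_of_hasDerivAt (fun s _ => dK_deriv ψ v (w - x) s)]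
      · simp only [zero_smul, sub_zero]
        rw [sub_sub]
      · refine Continuous.intervalIntegrable ?_ _ _
        exact (dK ψ v).continuous.comp (by fun_prop)
    have h2 : ∫ s in (0 : ℝ)..t, So (dK ψ v) u (x + s • v) =
        ∫ w, ∫ s in (0 : ℝ)..t, u w * dK ψ v (w - x - s • v) := by
      have h3 : ∀ s : ℝ, So (dK ψ v) u (x + s • v) = ∫ w, u w * dK ψ v (w - x - s • v) := by
        intro s
        unfold So
        refine integral_congr_ae (Eventually.of_forall fun w => ?_)
        simp only
        rw [sub_sub]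
      simp_rw [h3]
      refine intervalIntegral_integral_swap ?_
      have hm : Continuous (Function.uncurry fun (s : ℝ) (w : E) => u w * dK ψ v (w - x - s • v)) := by
        have h5 : Continuous fun p : ℝ × E => dK ψ v (p.2 - x - p.1 • v) :=
          (dK ψ v).continuous.comp (by fun_prop)
        exact (h.cont.comp continuous_snd).mul h5
      haveI : IsFiniteMeasure (volume.restrict (uIoc 0 t)) :=
        ⟨by rw [Measure.restrict_apply_univ, Real.volume_uIoc]; exact ENNReal.ofReal_lt_top⟩
      refine (integrable_prod_iff hm.aestronglyMeasurable).mpr ⟨?_, ?_⟩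
      · refine Eventually.of_forall fun s => ?_
        have h6 : Integrable fun w => dK ψ v (w - x - s • v) := by
          have := (dK ψ v).integrable (μ := volume).comp_sub_right (x + s • v)
          refine this.congr (Eventually.of_forall fun w => ?_)
          simp only; rw [sub_sub]
        exact h6.bdd_mul (c := B) h.cont.aestronglyMeasurable (Eventually.of_forall fun w => h.bd _)
      · refine Integrable.mono' (g := fun _ => B * n1 (dK ψ v)) (integrable_const _) ?_ ?_
        · exact (hm.norm.stronglyMeasurable.integral_prod_right (ν := volume)).aestronglyMeasurable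
        · refine Eventually.of_forall fun s => ?_
          rw [Real.norm_of_nonneg (integral_nonneg fun _ => norm_nonneg _)]
          have e7 : B * n1 (dK ψ v) = ∫ w, B * ‖dK ψ v (w - x - s • v)‖ := by
            rw [integral_const_mul]
            unfold n1
            rw [← integral_sub_right_eq_self (fun w => ‖dK ψ v w‖) (x + s • v)]
            simp_rw [sub_sub]
          rw [e7]
          refine integral_mono_of_nonneg (Eventually.of_forall fun w => norm_nonneg _) ?_
            (Eventually.of_forall fun w => ?_)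
          · have := ((dK ψ v).integrable (μ := volume).comp_sub_right (x + s • v)).norm.const_mul B
            refine this.congr (Eventually.of_forall fun w => ?_)
            simp only; rw [sub_sub]
          · simp only [Function.uncurry, norm_mul]
            exact mul_le_mul_of_nonneg_right (h.bd _) (norm_nonneg _)
    rw [h2]
    have h4 : ∀ w, ∫ s in (0 : ℝ)..t, u w * dK ψ v (w - x - s • v) =
        u w * ψ (w - (x + t • v)) - u w * ψ (w - x) := by
      intro w
      rw [intervalIntegral.integral_const_mul, h1 w, mul_sub]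
    simp_rw [h4]
    have hi : ∀ y : E, Integrable fun w => u w * ψ (w - y) := by
      intro y
      refine (ψ.integrable.comp_sub_right y).bdd_mul (c := B) h.cont.aestronglyMeasurable
        (Eventually.of_forall fun w => h.bd _)
    rw [integral_sub (hi _) (hi _)]
    unfold So
    ring
  have h5 : HasDerivAt (fun t : ℝ => So ψ u x + ∫ s in (0 : ℝ)..t, So (dK ψ v) u (x + s • v))
      (So (dK ψ v) u (x + t • v)) t := by
    have := intervalIntegral.integral_hasDerivAt_right (hcont.intervalIntegrable 0 t)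
      (hcont.stronglyMeasurableAtFilter _ _) hcont.continuousAt
    exact this.const_add _
  have h6 : (fun t : ℝ => So ψ u (x + t • v)) =
      fun t : ℝ => So ψ u x + ∫ s in (0 : ℝ)..t, So (dK ψ v) u (x + s • v) := funext key
  rw [h6]
  exact h5

end Pool.Agent.V1178.TW
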