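import Mathlib
import Pool.Agent.V1178.TW.Spec
import Pool.Agent.V1178.TW.Ent
set_option autoImplicit false

/-! # Category argument and exponentials -/

namespace Pool.Agent.V1178.TW

open MeasureTheory Filter Topology Set FourierTransform SchwartzMap Metric
open scoped ENNReal ContDiff BoundedContinuousFunction InnerProductSpace

variable {E : Type*} [NormedAddCommGroup E] [InnerProductSpace ℝ E] [FiniteDimensional ℝ E]
  [MeasurableSpace E] [BorelSpace E]

/-- a kernel whose Fourier transform is one on a ball -/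
theorem exists_psi (R : ℝ) : ∃ ψ : 𝓢(E, ℂ), ∀ ξ, ‖ξ‖ ≤ R → (𝓕 ψ : 𝓢(E, ℂ)) ξ = 1 := by
  let f : ContDiffBump (0 : E) := ⟨|R| + 1, |R| + 2, by positivity, by linarith⟩
  have hg₁ : HasCompactSupport (Complex.ofRealCLM ∘ f) := f.hasCompactSupport.comp_left rfl
  have hg₂ : ContDiff ℝ ∞ (Complex.ofRealCLM ∘ f) := Complex.ofRealCLM.contDiff.comp f.contDiff
  refine ⟨𝓕⁻ (hg₁.toSchwartzMap hg₂), fun ξ hξ => ?_⟩
  rw [FourierTransform.fourier_fourierInv_eq]
  have h1 : f ξ = 1 := f.one_of_mem_closedBall (by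
    rw [mem_closedBall_zero_iff]
    change ‖ξ‖ ≤ |R| + 1
    linarith [le_abs_self R])
  simp [h1]

/-- iterated derivatives -/
noncomputable def uk (K : 𝓢(E, ℂ)) (u : E → ℂ) : ℕ → E → ℂ
  | 0 => u
  | k + 1 => So K (uk K u k)

theorem uk_BC {B : ℝ} {u : E → ℂ} (h : BC B u) (K : 𝓢(E, ℂ)) : ∀ k, BC (B * n1 K ^ k) (uk K u k)
  | 0 => by simpa [uk] using h
  | k + 1 => by
    have := So_BC (uk_BC h K k) K
    rw [mul_assoc, ← pow_succ] at this
    exact this

theorem uk_Sp {B R : ℝ} {u : E → ℂ} (h : BC B u) (hs : Sp R u) (K : 𝓢(E, ℂ)) : ∀ k, Sp R (uk K u k)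
  | 0 => hs
  | k + 1 => So_spec (uk_BC h K k) (uk_Sp h hs K k) K

/-- extension to entire functions along lines -/
theorem exists_ent {B R : ℝ} {u : E → ℂ} (h : BC B u) (hs : Sp R u) (x v : E) :
    ∃ (P : ℂ → ℂ) (M : ℝ), 0 ≤ M ∧ Differentiable ℂ P ∧ (∀ t : ℝ, P t = u (x + t • v)) ∧
      ∀ z, ‖P z‖ ≤ B * Real.exp (M * ‖z‖) := by
  obtain ⟨ψ, hψ⟩ := exists_psi (E := E) R
  obtain ⟨P, h1, h2, h3⟩ := entire_of (fun k t => uk (dK ψ v) u k (x + t • v)) B (n1 (dK ψ v))
    (n1_nonneg _) (fun k t => by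
      have h4 := So_deriv (uk_BC h (dK ψ v) k) ψ x v t
      rw [repro (uk_BC h (dK ψ v) k) (uk_Sp h hs (dK ψ v) k) ψ hψ] at h4
      exact h4) (fun k t => (uk_BC h (dK ψ v) k).bd _)
  exact ⟨P, n1 (dK ψ v), n1_nonneg _, h1, h2, h3⟩

/-- the phase function -/
noncomputable def ex (a : ℝ) : ℂ := Complex.exp ((2 * Real.pi * a : ℝ) * Complex.I)

theorem norm_ex (a : ℝ) : ‖ex a‖ = 1 := Complex.norm_exp_ofReal_mul_I _
theorem ex_cont : Continuous ex := by unfold ex; fun_prop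

theorem ex_close (a b : ℝ) : ‖ex a - ex b‖ ≤ 2 * Real.pi * |a - b| := by
  have h : ex a - ex b = ex b * (Complex.exp (Complex.I * ((2 * Real.pi * (a - b) : ℝ) : ℂ)) - 1) := by
    unfold ex
    rw [mul_sub, mul_one, ← Complex.exp_add]
    congr 2
    push_cast; ring
  rw [h, norm_mul, norm_ex, one_mul]
  refine Real.norm_exp_I_mul_ofReal_sub_one_le.trans (le_of_eq ?_)
  rw [Real.norm_eq_abs, abs_mul, abs_of_pos (by positivity)]

/-- lines and phases -/
theorem line_affine {R : ℝ} {γ : E → E} (hγ : Continuous γ) (ξ : E)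
    (h1 : Sp R fun x => ex ⟪ξ, γ x⟫_ℝ) (h2 : Sp R fun x => ex (-⟪ξ, γ x⟫_ℝ)) (x v : E) :
    ∃ α β : ℝ, ∀ t : ℝ, ⟪ξ, γ (x + t • v)⟫_ℝ = α + β * t := by
  have hc1 : BC 1 fun x => ex ⟪ξ, γ x⟫_ℝ :=
    ⟨ex_cont.comp (continuous_const.inner hγ), fun x => (norm_ex _).le⟩
  have hc2 : BC 1 fun x => ex (-⟪ξ, γ x⟫_ℝ) :=
    ⟨ex_cont.comp (continuous_const.inner hγ).neg, fun x => (norm_ex _).le⟩
  obtain ⟨P, M, hM, hP, hPl, hPb⟩ := exists_ent hc1 h1 x v
  obtain ⟨Q, _, _, hQ, hQl, _⟩ := exists_ent hc2 h2 x v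
  refine affine_of (fun t => ⟪ξ, γ (x + t • v)⟫_ℝ) ?_ P Q hP hQ 1 M hM hPb ?_ ?_
  · exact continuous_const.inner (hγ.comp (by fun_prop))
  · intro t; rw [hPl]; rfl
  · intro t; rw [hQl]
    unfold ex
    congr 2
    push_cast; ring

theorem cont_pair {γ : E → E} (hγ : Continuous γ) : Continuous fun p : E × E => ex ⟪p.2, γ p.1⟫_ℝ :=
  ex_cont.comp (continuous_snd.inner (hγ.comp continuous_fst))

theorem pair_int {γ : E → E} (hγ : Continuous γ) (Ψ : 𝓢(E, ℂ)) {g : E → ℂ} (hg : Integrable g) :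
    Integrable (Function.uncurry fun x ξ => g ξ * (ex ⟪ξ, γ x⟫_ℝ * Ψ x)) (volume.prod volume) := by
  have hφi : Integrable (fun x => Ψ x) volume := SchwartzMap.integrable _
  have h1 := hφi.mul_prod hg
  have h2 := h1.bdd_mul (c := 1) (f := fun p : E × E => ex ⟪p.2, γ p.1⟫_ℝ)
    (cont_pair hγ).aestronglyMeasurable (Eventually.of_forall fun p => (norm_ex _).le)
  refine h2.congr (Eventually.of_forall fun p => ?_)
  simp only [Function.uncurry]
  ring

/-! ### the Banach space of symbols -/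

/-- the function with the Fourier transform `1_B g` -/
noncomputable def fB (g : E →ᵇ ℂ) (x : E) : ℂ := ∫ ξ in closedBall (0 : E) 1, ex ⟪ξ, x⟫_ℝ * g ξ

/-- volume of the ball -/
noncomputable def VB (E : Type*) [NormedAddCommGroup E] [InnerProductSpace ℝ E] [FiniteDimensional ℝ E]
  [MeasurableSpace E] [BorelSpace E] : ℝ := (volume (closedBall (0 : E) 1)).toReal

theorem fB_int (g : E →ᵇ ℂ) (x : E) :
    IntegrableOn (fun ξ => ex ⟪ξ, x⟫_ℝ * g ξ) (closedBall (0 : E) 1) := by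
  refine ContinuousOn.integrableOn_compact (isCompact_closedBall 0 1) (Continuous.continuousOn ?_)
  exact (ex_cont.comp (by fun_prop)).mul g.continuous

theorem fB_bd (g : E →ᵇ ℂ) (x : E) : ‖fB g x‖ ≤ ‖g‖ * VB E := by
  unfold fB VB
  refine (norm_setIntegral_le_of_norm_le_const (C := ‖g‖) measure_closedBall_lt_top ?_)
  intro ξ _
  rw [norm_mul, norm_ex, one_mul]
  exact g.norm_coe_le_norm ξ

theorem fB_cont (g : E →ᵇ ℂ) : Continuous (fB g) := by
  unfold fB
  refine continuous_of_dominated (bound := fun ξ => ‖g ξ‖) ?_ ?_ ?_ ?_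
  · intro x; exact (fB_int g x).aestronglyMeasurable
  · intro x; refine Eventually.of_forall fun ξ => ?_
    rw [norm_mul, norm_ex, one_mul]
  · exact (g.continuous.norm).continuousOn.integrableOn_compact (isCompact_closedBall 0 1)
  · refine Eventually.of_forall fun ξ => ?_
    exact (ex_cont.comp (by fun_prop)).mul continuous_const

theorem fB_add (g h : E →ᵇ ℂ) (x : E) : fB (g + h) x = fB g x + fB h x := by
  unfold fB
  rw [← integral_add (fB_int g x) (fB_int h x)]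
  refine integral_congr_ae (Eventually.of_forall fun ξ => ?_)
  simp [mul_add]

theorem fB_smul (c : ℂ) (g : E →ᵇ ℂ) (x : E) : fB (c • g) x = c * fB g x := by
  unfold fB
  rw [← integral_const_mul]
  refine integral_congr_ae (Eventually.of_forall fun ξ => ?_)
  simp only [BoundedContinuousFunction.coe_smul, smul_eq_mul]
  ring

theorem fB_BC (g : E →ᵇ ℂ) {γ : E → E} (hγ : Continuous γ) :
    BC (‖g‖ * VB E) fun x => fB g (γ x) := ⟨(fB_cont g).comp hγ, fun x => fB_bd g _⟩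

/-- the functionals -/
noncomputable def Lam {γ : E → E} (hγ : Continuous γ) (Φ : 𝓢(E, ℂ)) : (E →ᵇ ℂ) →L[ℂ] ℂ :=
  LinearMap.mkContinuous
    { toFun := fun g => ∫ x, fB g (γ x) * Φ x
      map_add' := fun g h => by
        rw [← integral_add (int_mul' (fB_BC g hγ) Φ) (int_mul' (fB_BC h hγ) Φ)]
        refine integral_congr_ae (Eventually.of_forall fun x => ?_)
        simp only [fB_add]; ring
      map_smul' := fun c g => by
        simp only [RingHom.id_apply, smul_eq_mul]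
        rw [← integral_const_mul]
        refine integral_congr_ae (Eventually.of_forall fun _ => ?_)
        simp only [fB_smul]; ring } (VB E * n1 Φ) (fun g => by
      have h1 : ‖∫ x, fB g (γ x) * Φ x‖ ≤ (‖g‖ * VB E) * n1 Φ := by
        refine (norm_integral_le_integral_norm _).trans ?_
        unfold n1
        rw [← integral_const_mul]
        refine integral_mono_of_nonneg (Eventually.of_forall fun w => norm_nonneg _)
          (Φ.integrable.norm.const_mul _) (Eventually.of_forall fun w => ?_)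
        simp only [norm_mul]
        exact mul_le_mul_of_nonneg_right (fB_bd g _) (norm_nonneg _)
      calc _ ≤ (‖g‖ * VB E) * n1 Φ := h1
        _ = VB E * n1 Φ * ‖g‖ := by ring)

theorem Lam_apply {γ : E → E} (hγ : Continuous γ) (Φ : 𝓢(E, ℂ)) (g : E →ᵇ ℂ) :
    Lam hγ Φ g = ∫ x, fB g (γ x) * Φ x := rfl

/-- uniform bound of the spectra -/
theorem uniform {γ : E → E} (hγ : Continuous γ) (h : ∀ g : E →ᵇ ℂ, ∃ R, Sp R fun x => fB g (γ x)) :
    ∃ n : ℕ, ∀ g : E →ᵇ ℂ, Sp n fun x => fB g (γ x) := by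
  set S : ℕ → Submodule ℂ (E →ᵇ ℂ) := fun n =>
    ⨅ (Φ : 𝓢(E, ℂ)) (_ : ∀ ξ, ‖ξ‖ ≤ n → (𝓕 Φ : 𝓢(E, ℂ)) ξ = 0), LinearMap.ker (Lam hγ Φ).toLinearMap with hS
  have hmem : ∀ n g, g ∈ S n ↔ Sp n fun x => fB g (γ x) := by
    intro n g
    rw [hS]
    simp only [Submodule.mem_iInf, LinearMap.mem_ker]
    exact Iff.rfl
  have hcl : ∀ n, IsClosed (S n : Set (E →ᵇ ℂ)) := by
    intro n
    have : (S n : Set (E →ᵇ ℂ)) = ⋂ (Φ : 𝓢(E, ℂ)) (_ : ∀ ξ, ‖ξ‖ ≤ n → (𝓕 Φ : 𝓢(E, ℂ)) ξ = 0),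
        (Lam hγ Φ) ⁻¹' {0} := by
      ext g
      simp only [hS, SetLike.mem_coe, Submodule.mem_iInf, LinearMap.mem_ker, mem_iInter,
        mem_preimage, mem_singleton_iff]
      exact Iff.rfl
    rw [this]
    exact isClosed_iInter fun Φ => isClosed_iInter fun _ =>
      isClosed_singleton.preimage (Lam hγ Φ).continuous
  have hun : ⋃ n, (S n : Set (E →ᵇ ℂ)) = univ := by
    rw [eq_univ_iff_forall]
    intro g
    obtain ⟨R, hR⟩ := h g
    obtain ⟨n, hn⟩ := exists_nat_ge R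
    rw [mem_iUnion]
    refine ⟨n, (hmem n g).mpr fun Φ hΦ => hR Φ fun ξ hξ => hΦ ξ (hξ.trans hn)⟩
  obtain ⟨n, hn⟩ := nonempty_interior_of_iUnion_of_closed hcl hun
  have htop := Submodule.eq_top_of_nonempty_interior' (S n) hn
  exact ⟨n, fun g => (hmem n g).mp (by rw [htop]; trivial)⟩

/-- exponentials -/
theorem exp_spec {γ : E → E} (hγ : Continuous γ) (n : ℕ) (h : ∀ g : E →ᵇ ℂ, Sp n fun x => fB g (γ x))
    (ξ₀ : E) (hξ : ‖ξ₀‖ < 1) : Sp n fun x => ex ⟪ξ₀, γ x⟫_ℝ := by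
  intro Φ hΦ
  set r : ℕ → ℝ := fun k => (1 - ‖ξ₀‖) / (k + 1) with hr
  have hr0 : ∀ k, 0 < r k := fun k => by rw [hr]; have : 0 < 1 - ‖ξ₀‖ := by linarith
                                         positivity
  have hr1 : ∀ k, r k ≤ 1 - ‖ξ₀‖ := fun k => by
    rw [hr]
    refine div_le_self (by linarith) ?_
    have : (0 : ℝ) ≤ k := by positivity
    linarith
  have hrt : Tendsto r atTop (𝓝 0) := by
    have := tendsto_one_div_add_atTop_nhds_zero_nat (𝕜 := ℝ) |>.const_mul (1 - ‖ξ₀‖)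
    simpa [hr, div_eq_mul_inv] using this
  let f : ℕ → ContDiffBump ξ₀ := fun k => ⟨r k / 2, r k, by have := hr0 k; linarith, by
    have := hr0 k; linarith⟩
  have hfc : ∀ k, Continuous fun ξ => (((f k).normed volume ξ : ℝ) : ℂ) := fun k =>
    Complex.continuous_ofReal.comp (f k).continuous_normed
  have hfcs : ∀ k, HasCompactSupport fun ξ => (((f k).normed volume ξ : ℝ) : ℂ) := fun k =>
    ((f k).hasCompactSupport_normed (μ := volume)).comp_left Complex.ofReal_zero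
  choose C hC using fun k => (hfcs k).exists_bound_of_continuous (hfc k)
  let g : ℕ → (E →ᵇ ℂ) := fun k => BoundedContinuousFunction.ofNormedAddCommGroup _ (hfc k) (C k) (hC k)
  have hsub : ∀ k, ball ξ₀ (r k) ⊆ closedBall (0 : E) 1 := fun k ξ hξ' => by
    rw [mem_ball_iff_norm] at hξ'
    rw [mem_closedBall_zero_iff]
    calc ‖ξ‖ = ‖(ξ - ξ₀) + ξ₀‖ := by rw [sub_add_cancel]
      _ ≤ ‖ξ - ξ₀‖ + ‖ξ₀‖ := norm_add_le _ _
      _ ≤ 1 := by linarith [hr1 k]
  have hsupp : ∀ k ξ, ξ ∉ ball ξ₀ (r k) → (f k).normed volume ξ = 0 := fun k ξ hξ' => by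
    have h1 := (f k).support_normed_eq (μ := volume)
    by_contra hne
    exact hξ' (h1 ▸ (show ξ ∈ Function.support ((f k).normed volume) from hne))
  have hnorm : ∀ k y, fB (g k) y = ∫ ξ, ex ⟪ξ, y⟫_ℝ * (((f k).normed volume ξ : ℝ) : ℂ) := by
    intro k y
    unfold fB
    rw [setIntegral_eq_integral_of_forall_compl_eq_zero]
    · rfl
    · intro ξ hξ'
      have : (f k).normed volume ξ = 0 := hsupp k ξ fun h2 => hξ' (hsub k h2)
      change _ * (((f k).normed volume ξ : ℝ) : ℂ) = 0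
      rw [this]; simp
  have hni : ∀ k, Integrable fun ξ => (f k).normed volume ξ := fun k =>
    ((f k).continuous_normed).integrable_of_hasCompactSupport ((f k).hasCompactSupport_normed)
  have hcl : ∀ k y, ‖fB (g k) y - ex ⟪ξ₀, y⟫_ℝ‖ ≤ 2 * Real.pi * (r k * ‖y‖) := by
    intro k y
    have e1 : ex ⟪ξ₀, y⟫_ℝ = ∫ ξ, ex ⟪ξ₀, y⟫_ℝ * (((f k).normed volume ξ : ℝ) : ℂ) := by
      rw [integral_const_mul, integral_complex_ofReal, (f k).integral_normed]; simp
    have hi : ∀ (w : E → ℂ), Continuous w → (∀ ξ, ‖w ξ‖ ≤ 1) →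
        Integrable fun ξ => w ξ * (((f k).normed volume ξ : ℝ) : ℂ) := fun w hw hb =>
      (hni k).ofReal.bdd_mul (c := 1) hw.aestronglyMeasurable (Eventually.of_forall hb)
    have i1 := hi (fun ξ => ex ⟪ξ, y⟫_ℝ) (ex_cont.comp (by fun_prop)) fun ξ => (norm_ex _).le
    have i2 := hi (fun _ => ex ⟪ξ₀, y⟫_ℝ) continuous_const fun ξ => (norm_ex _).le
    rw [hnorm, e1, ← integral_sub i1 i2]
    refine (norm_integral_le_integral_norm _).trans ?_
    have e2 : 2 * Real.pi * (r k * ‖y‖) = ∫ ξ, 2 * Real.pi * (r k * ‖y‖) * (f k).normed volume ξ := by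
      rw [integral_const_mul, (f k).integral_normed, mul_one]
    rw [e2]
    refine integral_mono_of_nonneg (Eventually.of_forall fun _ => norm_nonneg _)
      ((hni k).const_mul _) (Eventually.of_forall fun ξ => ?_)
    simp only
    rw [← sub_mul, norm_mul, Complex.norm_real, Real.norm_of_nonneg ((f k).nonneg_normed ξ)]
    by_cases h1 : ξ ∈ ball ξ₀ (r k)
    · refine mul_le_mul_of_nonneg_right ?_ ((f k).nonneg_normed ξ)
      refine (ex_close _ _).trans ?_
      rw [← inner_sub_left]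
      refine mul_le_mul_of_nonneg_left ?_ (by positivity)
      refine (abs_real_inner_le_norm _ _).trans ?_
      rw [mem_ball_iff_norm] at h1
      exact mul_le_mul_of_nonneg_right h1.le (norm_nonneg _)
    · rw [hsupp k ξ h1]; simp
  have hb1 : ∀ k y, ‖fB (g k) y‖ ≤ 1 := by
    intro k y
    rw [hnorm]
    refine (norm_integral_le_integral_norm _).trans ?_
    rw [← (f k).integral_normed (μ := volume)]
    refine integral_mono_of_nonneg (Eventually.of_forall fun _ => norm_nonneg _) (hni k)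
      (Eventually.of_forall fun ξ => ?_)
    simp only
    rw [norm_mul, norm_ex, one_mul, Complex.norm_real, Real.norm_of_nonneg ((f k).nonneg_normed ξ)]
  have hlim : Tendsto (fun k => ∫ x, fB (g k) (γ x) * Φ x) atTop (𝓝 (∫ x, ex ⟪ξ₀, γ x⟫_ℝ * Φ x)) := by
    refine tendsto_integral_of_dominated_convergence (fun x => ‖Φ x‖) ?_ Φ.integrable.norm ?_ ?_
    · intro k; exact (int_mul' (fB_BC (g k) hγ) Φ).aestronglyMeasurable
    · intro k; refine Eventually.of_forall fun x => ?_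
      rw [norm_mul]
      exact mul_le_of_le_one_left (norm_nonneg _) (hb1 k _)
    · refine Eventually.of_forall fun x => ?_
      refine Tendsto.mul_const _ ?_
      rw [tendsto_iff_norm_sub_tendsto_zero]
      refine squeeze_zero (fun k => norm_nonneg _) (fun k => hcl k (γ x)) ?_
      have := (hrt.mul_const ‖γ x‖).const_mul (2 * Real.pi)
      simpa using this
  have hz : ∀ k, ∫ x, fB (g k) (γ x) * Φ x = 0 := fun k => h (g k) Φ hΦ
  simp_rw [hz] at hlim
  exact tendsto_nhds_unique hlim tendsto_const_nhds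

end Pool.Agent.V1178.TW
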